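import Mathlib

set_option autoImplicit false

namespace Pool.Agent.Results.MP_ba261c_co.Both

/-- `P` has a realizer of size `d`: `d` linear orders on `P` whose intersection is the order. -/
def Real (P : Type) [PartialOrder P] (d : ℕ) : Prop :=
  ∃ r : Fin d → P → P → Prop, (∀ i, IsLinearOrder P (r i)) ∧ ∀ a b, a ≤ b ↔ ∀ i, r i a b

/-- Dushnik-Miller dimension. -/
noncomputable def dim (P : Type) [PartialOrder P] : ℕ := sInf {d | Real P d}

/-- Irreducible posets: deleting any element lowers the dimension. -/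
def Irred (P : Type) [PartialOrder P] : Prop := ∀ x : P, dim {y : P // y ≠ x} < dim P

/-- Critical pairs `⟨a, b⟩`. -/
def Crit {P : Type} [PartialOrder P] (a b : P) : Prop :=
  ¬ a ≤ b ∧ ¬ b ≤ a ∧ (∀ z, a < z → b < z) ∧ ∀ z, z < b → z < a

theorem real_dual (P : Type) [PartialOrder P] (d : ℕ) (h : Real P d) : Real Pᵒᵈ d := by
  obtain ⟨r, h1, h2⟩ := h
  refine ⟨fun i a b => r i b a, fun i => ?_, fun a b => h2 b a⟩
  have := h1 i
  exact { refl := fun a => refl_of (r i) a
          trans := fun a b c h h' => trans_of (r i) h' h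
          antisymm := fun a b h h' => antisymm_of (r i) h' h
          total := fun a b => total_of (r i) b a }

theorem real_ex (P : Type) [PartialOrder P] [Finite P] : ∃ d, Real P d := by
  classical
  have : ∀ p : P × P, ∃ r : P → P → Prop, IsLinearOrder P r ∧ (∀ a b, a ≤ b → r a b) ∧
      (r p.1 p.2 → p.1 ≤ p.2) := by
    rintro ⟨x, y⟩
    by_cases hxy : x ≤ y
    · obtain ⟨r, h1, h2⟩ := extend_partialOrder (α := P) (· ≤ ·)
      exact ⟨r, h1, h2, fun _ => hxy⟩
    · let s : P → P → Prop := fun a b => a ≤ b ∨ (a ≤ y ∧ x ≤ b)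
      have : IsPartialOrder P s :=
        { refl := fun a => Or.inl le_rfl
          trans := by
            rintro a b c (h | h) (h' | h')
            exacts [Or.inl (h.trans h'), Or.inr ⟨h.trans h'.1, h'.2⟩, Or.inr ⟨h.1, h.2.trans h'⟩,
              Or.inr ⟨h.1, h'.2⟩]
          antisymm := by
            rintro a b (h | h) (h' | h')
            exacts [h.antisymm h', absurd (h'.2.trans (h.trans h'.1)) hxy,
              absurd (h.2.trans (h'.trans h.1)) hxy, absurd (h.2.trans h'.1) hxy] }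
      obtain ⟨r, h1, h2⟩ := extend_partialOrder s
      refine ⟨r, h1, fun a b h => h2 a b (Or.inl h), fun h => ?_⟩
      exact (antisymm_of r h (h2 y x (Or.inr ⟨le_rfl, le_rfl⟩))).le
  choose r h1 h2 h3 using this
  obtain ⟨n, ⟨e⟩⟩ := Finite.exists_equiv_fin (P × P)
  exact ⟨n, fun i => r (e.symm i), fun i => h1 _, fun a b =>
    ⟨fun h i => h2 _ a b h, fun h => h3 (a, b) (by simpa using h (e (a, b)))⟩⟩

theorem half (P : Type) [PartialOrder P] [Finite P] (x : P) (hx : ∀ S : Set P, IsGLB S x → x ∈ S)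
    (hj : ∀ S : Set P, IsLUB S x → x ∈ S) (hc : ∀ b, ¬ Crit x b) (d : ℕ) (h : Real {y : P // y ≠ x} d) : Real P d := by
  classical
  have low : ∀ b, ¬ b ≤ x → (∀ z, x < z → b ≤ z) → ∃ b', b' ≤ b ∧ x < b' := by
    intro b hb hz
    obtain ⟨b', ⟨h1, h2⟩, hm⟩ := Set.Finite.exists_minimal (Set.toFinite {c | c ≤ b ∧ ¬ c ≤ x})
      ⟨b, le_rfl, hb⟩
    refine ⟨b', h1, ?_⟩
    by_contra hn
    have h3 : ¬ x ≤ b' := fun h => hn (lt_of_le_not_ge h h2)
    refine hc b' ⟨h3, h2, fun z h => lt_of_le_not_ge (h1.trans (hz z h)) fun h' => h3 (h.le.trans h'),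
      fun z h => ?_⟩
    have h4 : z ≤ x := by
      by_contra h4
      exact h.not_ge (hm ⟨h.le.trans h1, h4⟩ h.le)
    exact lt_of_le_not_ge h4 fun h' => h3 (h'.trans h.le)
  obtain ⟨y, hxy, hy⟩ : ∃ y, x < y ∧ ∀ z, x < z → y ≤ z := by
    have : ¬ IsGLB {z | x < z} x := fun h => lt_irrefl x (hx _ h)
    obtain ⟨b, hb, hbx⟩ : ∃ b, (∀ z, x < z → b ≤ z) ∧ ¬ b ≤ x := by
      by_contra hn
      push Not at hn
      exact this ⟨fun z hz => le_of_lt hz, fun b hb => hn b hb⟩
    obtain ⟨b', h1, h2⟩ := low b hbx hb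
    exact ⟨b', h2, fun z hz => h1.trans (hb z hz)⟩
  obtain ⟨r, h1, h2⟩ := h
  let π : P → {y : P // y ≠ x} := fun a => if h : a = x then ⟨y, hxy.ne'⟩ else ⟨a, h⟩
  have πx : π x = ⟨y, hxy.ne'⟩ := dif_pos rfl
  have πa : ∀ a (h : a ≠ x), π a = ⟨a, h⟩ := fun a h => dif_neg h
  have πe : ∀ a, π a = π x → a = x ∨ a = y := fun a h => by
    by_cases ha : a = x
    · exact Or.inl ha
    · rw [πa a ha, πx] at h; exact Or.inr (congrArg Subtype.val h)
  have πy : π y = π x := by rw [πa y hxy.ne', πx]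
  refine ⟨fun i a b => r i (π a) (π b) ∧ ¬ (a = y ∧ b = x), fun i => ?_, fun a b => ?_⟩
  · have := h1 i
    exact {
      refl := fun a => ⟨refl_of (r i) _, fun h => hxy.ne (h.2.symm.trans h.1)⟩
      trans := by
        rintro a b c h h'
        refine ⟨trans_of (r i) h.1 h'.1, ?_⟩
        rintro ⟨rfl, rfl⟩
        rcases πe b (antisymm_of (r i) h'.1 (πy ▸ h.1)) with h3 | h3
        exacts [h.2 ⟨rfl, h3⟩, h'.2 ⟨h3, rfl⟩]
      antisymm := by
        intro a b h h'
        have e := antisymm_of (r i) h.1 h'.1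
        by_cases ha : a = x
        · subst ha
          rcases πe b e.symm with h3 | h3
          exacts [h3.symm, absurd ⟨h3, rfl⟩ h'.2]
        · by_cases hb : b = x
          · subst hb
            exact absurd ⟨(πe a e).resolve_left ha, rfl⟩ h.2
          · rw [πa a ha, πa b hb] at e; exact congrArg Subtype.val e
      total := by
        intro a b
        by_cases h3 : a = y ∧ b = x
        · obtain ⟨rfl, rfl⟩ := h3
          exact Or.inr ⟨πy ▸ refl_of (r i) _, fun h => hxy.ne h.1⟩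
        · by_cases h4 : b = y ∧ a = x
          · obtain ⟨rfl, rfl⟩ := h4
            exact Or.inl ⟨πy ▸ refl_of (r i) _, h3⟩
          · exact (total_of (r i) (π a) (π b)).imp (fun h => ⟨h, h3⟩) fun h => ⟨h, h4⟩ }
  · have e : (∀ i, r i (π a) (π b) ∧ ¬ (a = y ∧ b = x)) → π a ≤ π b := fun h =>
      (h2 _ _).2 fun i => (h i).1
    by_cases ha : a = x
    · subst ha
      by_cases hb : b = a
      · subst hb
        exact iff_of_true le_rfl fun i => ⟨(h2 _ _).1 le_rfl i, fun h => hxy.ne h.1⟩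
      · refine ⟨fun h i => ⟨(h2 _ _).1 ?_ i, fun h => hb h.2⟩, fun h => ?_⟩
        · rw [πx, πa b hb]; exact hy b (lt_of_le_of_ne h (Ne.symm hb))
        · have := e h
          rw [πx, πa b hb] at this
          exact hxy.le.trans this
    · by_cases hb : b = x
      · subst hb
        refine ⟨fun h i => ⟨(h2 _ _).1 ?_ i, fun h' => hxy.not_ge (h'.1 ▸ h)⟩, fun h => ?_⟩
        · rw [πx, πa a ha]; exact h.trans hxy.le
        · have h3 := e h
          rw [πx, πa a ha] at h3
          by_contra h4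
          obtain ⟨b', h5, h6⟩ := low a h4 fun z hz => le_trans h3 (hy z hz)
          have h7 : a = y := le_antisymm h3 ((hy _ h6).trans h5)
          rcases isEmpty_or_nonempty (Fin d) with hd | ⟨⟨i⟩⟩
          · refine hj ∅ ⟨fun _ h => h.elim, fun w _ => ?_⟩
            by_cases hw : w = b
            · exact hw.ge
            · exact hxy.le.trans ((h2 ⟨y, hxy.ne'⟩ ⟨w, hw⟩).2 fun i => hd.elim i)
          · exact (h i).2 ⟨h7, rfl⟩
      · refine ⟨fun h i => ⟨(h2 _ _).1 ?_ i, fun h => hb h.2⟩, fun h => ?_⟩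
        · rw [πa a ha, πa b hb]; exact h
        · have := e h
          rwa [πa a ha, πa b hb] at this

theorem result (P : Type) [PartialOrder P] [Finite P] (hP : Irred P) (x : P)
    (hJ : ∀ S : Set P, IsLUB S x → x ∈ S) (hM : ∀ S : Set P, IsGLB S x → x ∈ S) :
    (∃ b, Crit x b) ∧ ∃ a, Crit a x := by
  have hm : Real {y : P // y ≠ x} (dim {y : P // y ≠ x}) := Nat.sInf_mem (real_ex _)
  constructor
  · by_contra hn
    push Not at hn
    exact (hP x).not_ge (Nat.sInf_le (half P x hM hJ hn _ hm))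
  · by_contra hn
    push Not at hn
    have h1 := half Pᵒᵈ x hJ hM (fun b h => hn b ⟨h.1, h.2.1, h.2.2.2, h.2.2.1⟩) _ (real_dual _ _ hm)
    exact (hP x).not_ge (Nat.sInf_le (real_dual _ _ h1))

end Pool.Agent.Results.MP_ba261c_co.Both
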